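import Pool.Agent.MVO.StmtsE

/-!
Row LLX of squad MVO: exchange of two last occurrences (mirror image of FFX).
-/

namespace Pool.Agent.MVO.H2

open Pool.Agent.Helper14_MV Pool.Agent.Helper2_MV Pool.Agent.MVO

theorem rvB_rvB {k : ℕ} (B : ℕ → List ℕ) {j : ℕ} (hj : j ≤ k) : rvB k (rvB k B) j = B j := by
  unfold rvB
  rw [List.reverse_reverse]
  congr 1
  omega

theorem blkOk_rvB {k : ℕ} {B : ℕ → List ℕ} (h : BlkOk k B) : BlkOk k (rvB k B) := by
  intro j hj c hc
  unfold rvB at hc
  rw [List.mem_reverse] at hc
  exact h (k - j) (by omega) c hc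

theorem deg_rvB (k : ℕ) (B : ℕ → List ℕ) (c : ℕ) :
    deg k (fun j => (rvB k B j).count c) = deg k (fun j => (B j).count c) := by
  unfold deg rvB
  simp only [List.count_reverse]
  have h := Finset.sum_range_reflect (fun j => (B j).count c) (k + 1)
  rw [← h]
  apply Finset.sum_congr rfl
  intro j hj
  congr 2

theorem llx (mra : MraStmt) (_mrt : MrtStmt) (mrc : MrcStmt) (ffx : FfxStmt) : LlxStmt := by
  intro ω hc k B C i P Q x y hi hB hA hxy hBi hxQ hyQ h1 h2 h3 h4 hT hC
  obtain ⟨jx, hjx, hjx2⟩ := h3
  obtain ⟨jy, hjy, hjy2⟩ := h4
  have hc' : MVD.Cc (MVD.mir ω) := (mrc ω).1.2 hc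
  have hki : k - (k - i) = i := by omega
  have key := ffx (MVD.mir ω) hc' k (rvB k B) (rvB k C) (k - i) Q.reverse P.reverse y x
    (by omega) (blkOk_rvB hB) ?_ hxy.symm ?_ (by rwa [List.mem_reverse]) (by rwa [List.mem_reverse])
    ?_ ?_ ?_ ?_ ?_ ?_
  · -- conclusion
    have hup : BlkOk k (Function.update (rvB k B) (k - i) (Q.reverse ++ x :: y :: P.reverse)) := by
      intro j hj c hc
      by_cases hji : j = k - i
      · subst hji
        rw [Function.update_self] at hc
        apply hB i hi c
        rw [hBi]
        simp only [List.mem_append, List.mem_reverse, List.mem_cons] at hc ⊢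
        tauto
      · rw [Function.update_of_ne hji] at hc
        exact blkOk_rvB hB j hj c hc
    rw [mra ω k _ _ (blkOk_rvB hB) hup] at key
    have e1 : asm k (rvB k (rvB k B)) = asm k B := asm_congr (fun j hj => rvB_rvB B hj)
    have e2 : asm k (rvB k (Function.update (rvB k B) (k - i)
        (Q.reverse ++ x :: y :: P.reverse))) =
        asm k (Function.update B i (P ++ y :: x :: Q)) := by
      apply asm_congr
      intro j hj
      by_cases hji : j = i
      · subst hji
        rw [Function.update_self]
        unfold rvB
        rw [Function.update_self]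
        simp
      · rw [Function.update_of_ne hji, ← rvB_rvB B hj]
        unfold rvB
        rw [Function.update_of_ne (by omega)]
    rw [e1, e2] at key
    exact key
  · -- AMul
    intro j hj c hc
    rw [deg_rvB]
    unfold rvB at hc
    rw [List.mem_reverse] at hc
    exact hA (k - j) (by omega) c hc
  · unfold rvB
    rw [hki, hBi]
    simp
  · intro j hj
    unfold rvB
    rw [List.mem_reverse, List.mem_reverse]
    have := h1 (k - j) (by omega) (by omega)
    exact ⟨this.2, this.1⟩
  · intro j hj hne
    unfold rvB
    rw [List.mem_reverse, List.mem_reverse]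
    have := h2 (k - j) (by omega) (by omega)
    exact this.symm
  · refine ⟨k - jy, by omega, by omega, ?_⟩
    unfold rvB
    rw [List.mem_reverse]
    have e : k - (k - jy) = jy := by omega
    rw [e]
    exact hjy2
  · refine ⟨k - jx, by omega, by omega, ?_⟩
    unfold rvB
    rw [List.mem_reverse]
    have e : k - (k - jx) = jx := by omega
    rw [e]
    exact hjx2
  · -- TwoD
    refine ⟨blkOk_rvB hT.ok, ?_, ?_, ?_⟩
    · intro j hj
      have := hT.cnt (k - j) (by omega)
      unfold rvB
      simp only [List.count_reverse]
      exact ⟨this.2, this.1⟩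
    · intro j hj z hz
      unfold rvB at hz
      rw [List.mem_reverse] at hz
      exact (hT.two (k - j) (by omega) z hz).symm
    · have hr : BlkOk k (r2 y x (rvB k B)) := by
        intro j hj c hc
        unfold r2 at hc
        exact blkOk_rvB hB j hj c (List.mem_filter.1 hc).1
      rw [mra ω k _ _ hr (blkOk_rvB hT.ok)]
      have e1 : asm k (rvB k (rvB k C)) = asm k C := asm_congr (fun j hj => rvB_rvB C hj)
      have e2 : asm k (rvB k (r2 y x (rvB k B))) = asm k (r2 x y B) := by
        apply asm_congr
        intro j hj
        unfold rvB r2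
        have e : k - (k - j) = j := by omega
        simp only [e]
        rw [← List.filter_reverse, List.reverse_reverse]
        apply List.filter_congr
        intro c _
        apply decide_eq_decide.2
        exact or_comm
      rw [e1, e2]
      exact hT.rel
  · unfold rvB
    rw [hki, List.head?_reverse]
    exact hC

end Pool.Agent.MVO.H2
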