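import Pool.Agent.MVO.StmtsD

/-!
Row PPS of squad MVO: push of an exchange.
-/

namespace Pool.Agent.MVO.H2

open Pool.Agent.Helper14_MV Pool.Agent.Helper2_MV Pool.Agent.MVO

theorem psh_succ (k : ℕ) (f a : ℕ → ℕ) (j : ℕ) :
    psh (k + 1) f a j = psh k f a j + (if f (k + 1) = j then a (k + 1) else 0) := by
  unfold psh
  rw [Finset.sum_range_succ _ (k + 1)]

theorem psh_zero (f a : ℕ → ℕ) (j : ℕ) : psh 0 f a j = if f 0 = j then a 0 else 0 := by
  unfold psh
  simp

theorem psh_eq_zero {k : ℕ} {f a : ℕ → ℕ} {j : ℕ} (h : psh k f a j = 0) :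
    ∀ i ≤ k, f i = j → a i = 0 := by
  intro i hi hf
  unfold psh at h
  rw [Finset.sum_eq_zero_iff] at h
  have := h i (Finset.mem_range.2 (by omega))
  rwa [if_pos hf] at this

theorem pshB_congr {k : ℕ} {f : ℕ → ℕ} {B B' : ℕ → List ℕ} {j : ℕ}
    (h : ∀ i ≤ k, f i = j → B i = B' i) : pshB k f B j = pshB k f B' j := by
  induction k with
  | zero =>
    rw [pshB_zero, pshB_zero]
    by_cases h1 : f 0 = j
    · rw [if_pos h1, if_pos h1, h 0 (le_refl 0) h1]
    · rw [if_neg h1, if_neg h1]
  | succ k ih =>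
    rw [pshB_succ, pshB_succ, ih (fun i hi => h i (by omega))]
    by_cases h1 : f (k + 1) = j
    · rw [if_pos h1, if_pos h1, h (k + 1) (le_refl _) h1]
    · rw [if_neg h1, if_neg h1]

theorem bl_zero_left (q : ℕ) (e : Bool) : bl 0 q e = List.replicate q 1 := by
  unfold bl
  cases e <;> simp

theorem bl_zero_right (p : ℕ) (e : Bool) : bl p 0 e = List.replicate p 0 := by
  unfold bl
  cases e <;> simp

/-- one of the pushed types is zero -/
theorem push_other {k : ℕ} {f : ℕ → ℕ} {a b : ℕ → ℕ} {j : ℕ}
    (h : psh k f a j = 0 ∨ psh k f b j = 0) (g : ℕ → Bool) (t : Bool) :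
    pshB k f (fun j => bl (a j) (b j) (g j)) j = bl (psh k f a j) (psh k f b j) t := by
  rcases h with h | h
  · rw [h, bl_zero_left, ← pshB_replicate]
    apply pshB_congr
    intro i hi hf
    rw [psh_eq_zero h i hi hf, bl_zero_left]
  · rw [h, bl_zero_right, ← pshB_replicate]
    apply pshB_congr
    intro i hi hf
    rw [psh_eq_zero h i hi hf, bl_zero_right]

theorem pshB_single {k : ℕ} {f : ℕ → ℕ} {B : ℕ → List ℕ} {i : ℕ} (hi : i ≤ k)
    (h : ∀ j ≤ k, j ≠ i → f j = f i → B j = []) : pshB k f B (f i) = B i := by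
  induction k with
  | zero =>
    have : i = 0 := by omega
    subst this
    rw [pshB_zero, if_pos rfl]
  | succ k ih =>
    rw [pshB_succ]
    by_cases h1 : i = k + 1
    · subst h1
      rw [if_pos rfl]
      have e : pshB k f B (f (k + 1)) = [] := by
        rw [List.eq_nil_iff_forall_not_mem]
        intro c hc
        obtain ⟨j, hj, hf, hm⟩ := mem_pshB.1 hc
        rw [h j (by omega) (by omega) hf] at hm
        exact List.not_mem_nil hm
      rw [e, List.nil_append]
    · rw [ih (by omega) (fun j hj => h j (by omega))]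
      by_cases h2 : f (k + 1) = f i
      · rw [if_pos h2, h (k + 1) (le_refl _) (fun h3 => h1 h3.symm) h2, List.append_nil]
      · rw [if_neg h2, List.append_nil]

theorem psh_single {k : ℕ} {f a : ℕ → ℕ} {i : ℕ} (hi : i ≤ k)
    (h : ∀ j ≤ k, j ≠ i → f j = f i → a j = 0) : psh k f a (f i) = a i := by
  unfold psh
  rw [Finset.sum_eq_single_of_mem i (Finset.mem_range.2 (by omega))]
  · rw [if_pos rfl]
  · intro j hj hne
    by_cases h2 : f j = f i
    · rw [if_pos h2]
      exact h j (by rw [Finset.mem_range] at hj; omega) hne h2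
    · rw [if_neg h2]

theorem blkOk_bl (k : ℕ) (a b : ℕ → ℕ) (g : ℕ → Bool) :
    BlkOk k (fun j => bl (a j) (b j) (g j)) := by
  intro j _ c hc hs
  have : c = 0 ∨ c = 1 := by
    unfold bl at hc
    cases hg : g j with
    | false =>
      simp only [hg, Bool.false_eq_true, if_false, List.mem_append, List.mem_replicate] at hc
      rcases hc with hc | hc
      · exact Or.inl hc.2
      · exact Or.inr hc.2
    | true =>
      simp only [hg, if_true, List.mem_append, List.mem_replicate] at hc
      rcases hc with hc | hc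
      · exact Or.inr hc.2
      · exact Or.inl hc.2
  omega

theorem pps : PpsStmt := by
  intro ρ k k' f a b i hf hi h1 h2 hB e'
  -- the pushed words
  have key : ∀ g g' : ℕ → Bool, g i = g' (f i) →
      asm k' (pshB k f (fun j => bl (a j) (b j) (g j))) = w2 k' (psh k f a) (psh k f b) g' := by
    intro g g' hg
    unfold w2
    apply asm_congr
    intro j hj
    by_cases hj2 : j = f i
    · subst hj2
      rw [pshB_single hi (fun j hj hne hfj => by
        rw [(h2 j hj hne hfj).1, (h2 j hj hne hfj).2, bl_zero_left]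
        rfl)]
      rw [psh_single hi (fun j hj hne hfj => (h2 j hj hne hfj).1),
        psh_single hi (fun j hj hne hfj => (h2 j hj hne hfj).2), hg]
    · exact push_other (h1 j hj hj2) g (g' j)
  have h3 := hB (fun _ => e' (f i))
  unfold Ex w2 at h3
  have h4 := rr_push ρ hf (blkOk_bl k a b _) (blkOk_bl k a b _) h3
  unfold Ex
  rw [← key (fun _ => e' (f i)) e' rfl,
    ← key (flp (fun _ => e' (f i)) i) (flp e' (f i)) (by unfold flp; simp)]
  exact h4

end Pool.Agent.MVO.H2
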