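import Pool.Agent.MVO.StmtsF

/-!
Row TFD of squad MVO: tightness over `O4` for non-local letters with the same first block.
-/

namespace Pool.Agent.MVO.H2

open Pool.Agent.Helper14_MV Pool.Agent.Helper2_MV Pool.Agent.MVO

theorem card_par (k : ℕ) (a : ℕ → ℕ) :
    (par k a).card = ∑ j ∈ Finset.range (k + 1), a j % 2 := by
  unfold par
  rw [Finset.card_filter]
  apply Finset.sum_congr rfl
  intro j _
  rcases Nat.mod_two_eq_zero_or_one (a j) with h | h
  · simp [h]
  · simp [h]

theorem deg_par (k : ℕ) (a : ℕ → ℕ) :
    deg k a = (par k a).card + 2 * ∑ j ∈ Finset.range (k + 1), a j / 2 := by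
  rw [card_par, Finset.mul_sum, ← Finset.sum_add_distrib]
  unfold deg
  apply Finset.sum_congr rfl
  intro j _
  omega

theorem two_le_deg {k : ℕ} {b : ℕ → ℕ} {i q : ℕ} (hi : i ≤ k) (hq : q ≤ k) (hne : i ≠ q)
    (h1 : 1 ≤ b i) (h2 : 1 ≤ b q) : 2 ≤ deg k b := by
  have hs : ({i, q} : Finset ℕ) ⊆ Finset.range (k + 1) := by
    intro x hx
    rw [Finset.mem_insert, Finset.mem_singleton] at hx
    rw [Finset.mem_range]
    omega
  have h3 := Finset.sum_le_sum_of_subset (f := b) hs
  rw [Finset.sum_pair hne] at h3
  unfold deg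
  omega

theorem tfd (oda : OdaStmt) (odr : OdrStmt) (fcn : FcnStmt) : TfdStmt := by
  intro β ρ hβρ hc hO k a a' b i h3 hd hL hnL hi _ hbq hmin hai hbi
  obtain ⟨q, hq, hiq, hbq⟩ := hbq
  obtain ⟨N0, N2, _⟩ := fcn ρ hc
  have hdb : 2 ≤ deg k b := two_le_deg hi hq (by omega) hbi hbq
  -- the rule
  have rule : ∀ a'' : ℕ → ℕ, deg k a'' = deg k a → L1 ρ k a a'' → 1 ≤ a'' q → Bt ρ k a b i := by
    intro a'' hda hL'' hq''
    apply N2 k a a'' b i hL''
    apply N0 k a'' b i (by omega) hdb hi ⟨q, hq, hiq, hbq⟩
    right; right; left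
    exact ⟨q, hq, by omega, hq'', hbq⟩
  have hpar : par k a ≠ par k a' := by
    intro h
    exact hnL (oda (FC.ofFIC β) k a a' hO h3 hd h)
  by_cases hM : ∑ j ∈ Finset.range (k + 1), a j / 2 = 0
  · -- all letters once
    have hcard : (par k a).card = deg k a := by
      have := deg_par k a
      omega
    have hOρ : O4 (FC.ofFIC ρ) := ⟨hβρ _ _ hO.1, hβρ _ _ hO.2⟩
    have hEP := odr (FC.ofFIC ρ) k a a' hOρ h3 hd hL hpar
    let a'' : ℕ → ℕ := fun j => (if j = i then deg k a - 1 else 0) + (if j = q then 1 else 0)
    have hda : deg k a'' = deg k a := by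
      unfold deg
      rw [Finset.sum_add_distrib, Finset.sum_ite_eq', Finset.sum_ite_eq',
        if_pos (Finset.mem_range.2 (by omega)), if_pos (Finset.mem_range.2 (by omega))]
      change deg k a - 1 + 1 = deg k a
      omega
    have hcd : (par k a'').card ≤ 2 := by
      have hs : par k a'' ⊆ {i, q} := by
        intro j hj
        unfold par at hj
        rw [Finset.mem_filter] at hj
        rw [Finset.mem_insert, Finset.mem_singleton]
        by_contra hcon
        rw [not_or] at hcon
        have : a'' j = 0 := by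
          change (if j = i then deg k a - 1 else 0) + (if j = q then 1 else 0) = 0
          rw [if_neg hcon.1, if_neg hcon.2]
        rw [this] at hj
        omega
      exact (Finset.card_le_card hs).trans Finset.card_le_two
    apply rule a'' hda (hEP k a a'' rfl hda (le_max_left _ _) ?_)
    · change 1 ≤ (if q = i then deg k a - 1 else 0) + (if q = q then 1 else 0)
      rw [if_pos rfl]
      omega
    · have := le_max_left (par k a).card (par k a').card
      omega
  · -- a square can be moved to `q`
    set M := ∑ j ∈ Finset.range (k + 1), a j / 2 with hMdef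
    let a'' : ℕ → ℕ := fun j => a j % 2 + (if j = q then 2 * M else 0)
    have hda : deg k a'' = deg k a := by
      rw [deg_par k a, card_par]
      unfold deg
      rw [Finset.sum_add_distrib, Finset.sum_ite_eq', if_pos (Finset.mem_range.2 (by omega))]
    have hp : par k a = par k a'' := by
      unfold par
      apply Finset.filter_congr
      intro j _
      change a j % 2 = 1 ↔ (a j % 2 + (if j = q then 2 * M else 0)) % 2 = 1
      by_cases hj : j = q
      · rw [if_pos hj]
        omega
      · rw [if_neg hj]
        omega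
    apply rule a'' hda (hβρ _ _ (oda (FC.ofFIC β) k a a'' hO h3 hda.symm hp))
    change 1 ≤ a q % 2 + (if q = q then 2 * M else 0)
    rw [if_pos rfl]
    omega

end Pool.Agent.MVO.H2
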